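import Pool.Agent.Helper76.GT.St

/-! Project GT (helper76), module DET. -/

set_option autoImplicit false

namespace Pool.Agent.Helper73.GT
open Pool.Agent.Helper76.GT Filter
open scoped Pointwise
universe u

theorem pDET : DET := by
  intro N M hN hM
  have hH := hM.isHermitian
  have h1 : M.det = ∏ i, hH.eigenvalues i := by
    have := hH.det_eq_prod_eigenvalues
    simpa using this
  have h2 : M.trace = ∑ i, hH.eigenvalues i := by
    have := hH.trace_eq_sum_eigenvalues
    simpa using this
  have h0 : ∀ i, 0 ≤ hH.eigenvalues i := fun i => hM.eigenvalues_nonneg i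
  have hN' : (0 : ℝ) < N := by exact_mod_cast hN
  have h4 := Real.geom_mean_le_arith_mean_weighted (Finset.univ : Finset (Fin N))
    (fun _ => (1 : ℝ) / N) hH.eigenvalues (fun i _ => by positivity)
    (by simp [hN'.ne']) (fun i _ => h0 i)
  have h5 : (∏ i, hH.eigenvalues i ^ ((1 : ℝ) / N)) ^ N = ∏ i, hH.eigenvalues i := by
    rw [← Finset.prod_pow]
    refine Finset.prod_congr rfl fun i _ => ?_
    rw [← Real.rpow_natCast, ← Real.rpow_mul (h0 i), one_div, inv_mul_cancel₀ hN'.ne',
      Real.rpow_one]
  have h6 : ∑ i, (1 : ℝ) / N * hH.eigenvalues i = M.trace / N := by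
    rw [← Finset.mul_sum, ← h2]
    ring
  rw [h6] at h4
  rw [h1, ← h5]
  exact pow_le_pow_left₀ (Finset.prod_nonneg fun i _ => Real.rpow_nonneg (h0 i) _) h4 N

end Pool.Agent.Helper73.GT
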